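import Mathlib

set_option autoImplicit false
open MeasureTheory Set Filter Topology
open scoped Real ComplexConjugate

namespace Pool.Agent.X50.SL

/-- The `n`-th Fourier coefficient of a function on the real line of period `2π`. -/
noncomputable def cF (G : ℝ → ℂ) (n : ℤ) : ℂ :=
  (2 * π : ℂ)⁻¹ * ∫ θ in (0 : ℝ)..(2 * π), G θ * Complex.exp (-(n * θ * Complex.I))

theorem cF_eq (G : ℝ → ℂ) (n : ℤ) :
    cF G n = fourierCoeffOn (a := 0) (b := 2 * π) Real.two_pi_pos G n := by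
  rw [fourierCoeffOn_eq_integral, cF, sub_zero, Complex.real_smul]
  congr 1
  · push_cast; rw [one_div]
  · refine intervalIntegral.integral_congr fun θ _ => ?_
    have hpi : (π : ℂ) ≠ 0 := by exact_mod_cast Real.pi_ne_zero
    simp only [smul_eq_mul, fourier_coe_apply]
    rw [mul_comm]
    congr 2
    push_cast
    field_simp
    try ring

theorem parseval {G : ℝ → ℂ} (hG : Continuous G) :
    HasSum (fun n : ℤ => ‖cF G n‖ ^ 2) ((2 * π)⁻¹ * ∫ θ in (0 : ℝ)..(2 * π), ‖G θ‖ ^ 2) := by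
  have hL : MemLp G 2 (volume.restrict (Ioc 0 (2 * π))) := by
    have h1 : IsCompact (G '' Icc 0 (2 * π)) := isCompact_Icc.image hG
    obtain ⟨C, hC⟩ := h1.isBounded.exists_norm_le
    refine MemLp.of_bound hG.aestronglyMeasurable C ?_
    refine (ae_restrict_iff' measurableSet_Ioc).2 (Eventually.of_forall fun x hx => ?_)
    exact hC _ (mem_image_of_mem _ (Ioc_subset_Icc_self hx))
  have h := hasSum_sq_fourierCoeffOn (a := 0) (b := 2 * π) Real.two_pi_pos hL
  simp only [← cF_eq, sub_zero, smul_eq_mul] at h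
  exact h

theorem cF_shift {G : ℝ → ℂ} (hper : Function.Periodic G (2 * π)) (h : ℝ)
    (n : ℤ) : cF (fun θ => G (θ + h)) n = Complex.exp (n * h * Complex.I) * cF G n := by
  unfold cF
  rw [mul_left_comm]
  congr 1
  let K : ℝ → ℂ := fun θ => G θ * Complex.exp (-(n * θ * Complex.I))
  have hK : Function.Periodic K (2 * π) := by
    intro θ
    simp only [K]
    rw [hper θ]
    congr 1
    rw [Complex.exp_eq_exp_iff_exists_int]
    refine ⟨-n, ?_⟩
    push_cast
    ring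
  have h1 : ∀ θ : ℝ, G (θ + h) * Complex.exp (-(n * θ * Complex.I))
      = Complex.exp (n * h * Complex.I) * K (θ + h) := by
    intro θ
    simp only [K]
    rw [mul_left_comm, ← Complex.exp_add]
    congr 2
    push_cast
    ring
  simp only [h1]
  rw [intervalIntegral.integral_const_mul, intervalIntegral.integral_comp_add_right K h]
  congr 1
  have h2 := hK.intervalIntegral_add_eq h 0
  rw [zero_add] at h2
  rw [zero_add, add_comm (2 * π) h, h2]

theorem cF_sub {G K : ℝ → ℂ} (hG : Continuous G) (hK : Continuous K) (n : ℤ) :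
    cF (fun θ => G θ - K θ) n = cF G n - cF K n := by
  unfold cF
  rw [← mul_sub, ← intervalIntegral.integral_sub]
  · congr 1
    refine intervalIntegral.integral_congr fun θ _ => ?_
    simp only
    ring
  · exact (hG.mul (by fun_prop)).intervalIntegrable _ _
  · exact (hK.mul (by fun_prop)).intervalIntegrable _ _

/-- Bernstein: the Fourier coefficients of a Lipschitz function are square summable with weight
`n ^ 2` -/
theorem sum_sq_le {G : ℝ → ℂ} (hper : Function.Periodic G (2 * π)) {L : ℝ} (hL : 0 ≤ L)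
    (hlip : ∀ x y, ‖G x - G y‖ ≤ L * |x - y|) (s : Finset ℤ) :
    ∑ n ∈ s, (n : ℝ) ^ 2 * ‖cF G n‖ ^ 2 ≤ (π ^ 2 / 4) * L ^ 2 := by
  have hG : Continuous G := by
    have : LipschitzWith (Real.toNNReal L) G := by
      refine LipschitzWith.of_dist_le_mul fun x y => ?_
      rw [dist_eq_norm, Real.dist_eq, Real.coe_toNNReal _ hL]
      exact hlip x y
    exact this.continuous
  obtain ⟨N, hN1, hN⟩ : ∃ N : ℕ, 1 ≤ N ∧ ∀ n ∈ s, |(n : ℝ)| ≤ N := by
    refine ⟨s.sup Int.natAbs + 1, by omega, fun n hn => ?_⟩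
    have h1 : n.natAbs ≤ s.sup Int.natAbs := Finset.le_sup (f := Int.natAbs) hn
    have h2 : |(n : ℝ)| = (n.natAbs : ℝ) := by
      rw [Nat.cast_natAbs, Int.cast_abs]
    rw [h2]
    exact_mod_cast h1.trans (Nat.le_succ _)
  have hN0 : (0 : ℝ) < N := by exact_mod_cast hN1
  set h : ℝ := 1 / N with hh
  have hh0 : 0 < h := by positivity
  let D : ℝ → ℂ := fun θ => G (θ + h) - G θ
  have hGs : Continuous (fun θ => G (θ + h)) := hG.comp (by fun_prop)
  have hD : Continuous D := hGs.sub hG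
  have hcD : ∀ n, cF D n = (Complex.exp (n * h * Complex.I) - 1) * cF G n := by
    intro n
    simp only [D]
    rw [cF_sub hGs hG, cF_shift hper]
    ring
  have hpD := parseval hD
  have hint : (2 * π)⁻¹ * ∫ θ in (0 : ℝ)..(2 * π), ‖D θ‖ ^ 2 ≤ (L * h) ^ 2 := by
    have h1 : ∫ θ in (0 : ℝ)..(2 * π), ‖D θ‖ ^ 2 ≤ ∫ θ in (0 : ℝ)..(2 * π), (L * h) ^ 2 := by
      refine intervalIntegral.integral_mono_on Real.two_pi_pos.le ?_ ?_ fun θ _ => ?_
      · exact (hD.norm.pow 2).intervalIntegrable _ _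
      · exact intervalIntegrable_const
      · have := hlip (θ + h) θ
        rw [add_sub_cancel_left, abs_of_pos hh0] at this
        exact pow_le_pow_left₀ (norm_nonneg _) this 2
    rw [intervalIntegral.integral_const, sub_zero, smul_eq_mul] at h1
    calc _ ≤ (2 * π)⁻¹ * (2 * π * (L * h) ^ 2) := by
            exact mul_le_mul_of_nonneg_left h1 (by positivity)
      _ = (L * h) ^ 2 := by field_simp
  have hsum : ∑ n ∈ s, ‖cF D n‖ ^ 2 ≤ (L * h) ^ 2 :=
    (sum_le_hasSum s (fun _ _ => by positivity) hpD).trans hint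
  have hterm : ∀ n ∈ s, (2 / π * h) ^ 2 * ((n : ℝ) ^ 2 * ‖cF G n‖ ^ 2) ≤ ‖cF D n‖ ^ 2 := by
    intro n hn
    rw [hcD, norm_mul, mul_pow (‖Complex.exp (n * h * Complex.I) - 1‖)]
    have h1 : 2 / π * h * |(n : ℝ)| ≤ ‖Complex.exp (n * h * Complex.I) - 1‖ := by
      have e : Complex.exp (n * h * Complex.I) - 1
          = Complex.exp (Complex.I * ((n * h : ℝ) : ℂ)) - 1 := by
        congr 2
        push_cast
        ring
      rw [e, Complex.norm_exp_I_mul_ofReal_sub_one, norm_mul, Real.norm_eq_abs, Real.norm_eq_abs]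
      have h2 : |(n : ℝ) * h / 2| ≤ π / 2 := by
        rw [abs_div, abs_mul, abs_of_pos hh0, abs_two]
        have : |(n : ℝ)| * h ≤ 1 := by
          rw [hh, mul_one_div, div_le_one hN0]
          exact hN n hn
        have := Real.pi_gt_three
        linarith
      have h3 := Real.mul_abs_le_abs_sin h2
      have h4 : |(n : ℝ) * h / 2| = |(n : ℝ)| * h / 2 := by
        rw [abs_div, abs_mul, abs_of_pos hh0, abs_two]
      rw [h4] at h3
      rw [abs_two]
      calc 2 / π * h * |(n : ℝ)| = 2 * (2 / π * (|(n : ℝ)| * h / 2)) := by ring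
        _ ≤ _ := by gcongr
    have h5 : (2 / π * h * |(n : ℝ)|) ^ 2 ≤ ‖Complex.exp (n * h * Complex.I) - 1‖ ^ 2 :=
      pow_le_pow_left₀ (by positivity) h1 2
    calc (2 / π * h) ^ 2 * ((n : ℝ) ^ 2 * ‖cF G n‖ ^ 2)
        = (2 / π * h * |(n : ℝ)|) ^ 2 * ‖cF G n‖ ^ 2 := by
          rw [mul_pow (2 / π * h) |(n : ℝ)|, sq_abs]; ring
      _ ≤ _ := by gcongr
  have htot : (2 / π * h) ^ 2 * ∑ n ∈ s, (n : ℝ) ^ 2 * ‖cF G n‖ ^ 2 ≤ (L * h) ^ 2 := by
    rw [Finset.mul_sum]
    exact (Finset.sum_le_sum hterm).trans hsum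
  have hpi := Real.pi_pos
  have hpos : 0 < (2 / π * h) ^ 2 := by positivity
  rw [← mul_le_mul_iff_right₀ hpos]
  calc _ ≤ (L * h) ^ 2 := htot
    _ = (2 / π * h) ^ 2 * (π ^ 2 / 4 * L ^ 2) := by field_simp; try ring

theorem summable_cF {G : ℝ → ℂ} (hper : Function.Periodic G (2 * π)) {L : ℝ} (hL : 0 ≤ L)
    (hlip : ∀ x y, ‖G x - G y‖ ≤ L * |x - y|) : Summable (fun n : ℤ => ‖cF G n‖) := by
  have h1 : Summable (fun n : ℤ => (n : ℝ) ^ 2 * ‖cF G n‖ ^ 2) :=
    summable_of_sum_le (fun _ => by positivity) (sum_sq_le hper hL hlip)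
  have h2 : Summable (fun n : ℤ => 1 / (n : ℝ) ^ 2) :=
    Real.summable_one_div_int_pow.2 one_lt_two
  refine Summable.of_norm_bounded_eventually (h1.add h2) ?_
  have h3 : {n : ℤ | ¬ ‖‖cF G n‖‖ ≤ (n : ℝ) ^ 2 * ‖cF G n‖ ^ 2 + 1 / (n : ℝ) ^ 2} ⊆ {0} := by
    intro n hn
    by_contra h0
    apply hn
    simp only [mem_singleton_iff] at h0
    have hn0 : (n : ℝ) ≠ 0 := by exact_mod_cast h0
    have hn2 : 0 < (n : ℝ) ^ 2 := by positivity
    rw [norm_norm]
    have h4 : 0 ≤ (|(n : ℝ)| * ‖cF G n‖ - 1 / |(n : ℝ)|) ^ 2 := sq_nonneg _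
    have habs : |(n : ℝ)| ≠ 0 := by simpa using hn0
    have h5 : (|(n : ℝ)| * ‖cF G n‖ - 1 / |(n : ℝ)|) ^ 2
        = (n : ℝ) ^ 2 * ‖cF G n‖ ^ 2 + 1 / (n : ℝ) ^ 2 - 2 * ‖cF G n‖ := by
      have : |(n : ℝ)| ^ 2 = (n : ℝ) ^ 2 := sq_abs _
      rw [← this]
      field_simp
      ring
    rw [h5] at h4
    have := norm_nonneg (cF G n)
    linarith
  exact (finite_singleton (0 : ℤ)).subset h3

end Pool.Agent.X50.SL
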