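import Mathlib
import Pool.Agent.X50.SL.Calc

set_option autoImplicit false
set_option linter.unusedSectionVars false
open scoped ENNReal InnerProductSpace Topology Real NNReal
open Module ContinuousLinearMap Filter MeasureTheory
open Pool.Agent.Helper872.Sch

namespace Pool.Agent.X50.SL

/-- the function `z ↦ |1 - z|` -/
noncomputable def fE (z : Circle) : ℂ := ((‖(1 : ℂ) - z‖ : ℝ) : ℂ)

theorem fE_lip : LipschitzWith 1 fE := by
  refine LipschitzWith.of_dist_le_mul fun z w => ?_
  rw [NNReal.coe_one, one_mul, dist_eq_norm]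
  unfold fE
  rw [← Complex.ofReal_sub, Complex.norm_real, Real.norm_eq_abs]
  refine (abs_norm_sub_norm_le _ _).trans ?_
  rw [sub_sub_sub_cancel_left, ← dist_eq_norm, dist_comm]
  exact le_rfl

theorem fE_exp {θ : ℝ} (h0 : 0 ≤ θ) (h1 : θ ≤ 2 * π) :
    fE (Circle.exp θ) = ((2 * Real.sin (θ / 2) : ℝ) : ℂ) := by
  unfold fE
  congr 1
  have hs : 0 ≤ Real.sin (θ / 2) := Real.sin_nonneg_of_nonneg_of_le_pi (by linarith) (by linarith)
  have e : (1 : ℂ) - (Circle.exp θ : ℂ) = -(Complex.exp (Complex.I * θ) - 1) := by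
    rw [Circle.coe_exp, mul_comm Complex.I]
    ring
  rw [e, norm_neg, Complex.norm_exp_I_mul_ofReal_sub_one, norm_mul, Real.norm_eq_abs,
    Real.norm_eq_abs, abs_two, abs_of_nonneg hs]

theorem int_half_ne (n : ℤ) : (1 / 2 : ℂ) + n ≠ 0 := by
  intro h
  have h2 : ((1 + 2 * n : ℤ) : ℂ) = 0 := by push_cast; linear_combination 2 * h
  have h3 : (1 + 2 * n : ℤ) = 0 := by exact_mod_cast h2
  omega

theorem co_fE (n : ℤ) : co fE n = ((4 / (π * (1 - 4 * (n : ℝ) ^ 2)) : ℝ) : ℂ) := by
  have hI : Complex.I ≠ 0 := Complex.I_ne_zero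
  have hpi : (π : ℂ) ≠ 0 := by exact_mod_cast Real.pi_ne_zero
  have hp := int_half_ne n
  have hm : (1 / 2 : ℂ) - n ≠ 0 := by
    have := int_half_ne (-n)
    push_cast at this
    rwa [← sub_eq_add_neg] at this
  set a : ℂ := -(Complex.I * (1 / 2 + n)) with ha
  set b : ℂ := Complex.I * (1 / 2 - n) with hb
  have ha0 : a ≠ 0 := by rw [ha]; exact neg_ne_zero.2 (mul_ne_zero hI hp)
  have hb0 : b ≠ 0 := by rw [hb]; exact mul_ne_zero hI hm
  have h1 : ∫ θ in (0 : ℝ)..(2 * π), fE (Circle.exp θ) * Complex.exp (-(n * θ * Complex.I))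
      = ∫ θ in (0 : ℝ)..(2 * π), (Complex.I * Complex.exp (a * θ) - Complex.I * Complex.exp (b * θ)) := by
    refine intervalIntegral.integral_congr fun θ hθ => ?_
    rw [Set.uIcc_of_le Real.two_pi_pos.le] at hθ
    rw [fE_exp hθ.1 hθ.2]
    push_cast
    rw [Complex.sin]
    have e1 : Complex.exp (a * θ) = Complex.exp (-((θ : ℂ) / 2) * Complex.I)
        * Complex.exp (-(n * θ * Complex.I)) := by
      rw [← Complex.exp_add]
      congr 1
      rw [ha]
      ring
    have e2 : Complex.exp (b * θ) = Complex.exp (((θ : ℂ) / 2) * Complex.I)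
        * Complex.exp (-(n * θ * Complex.I)) := by
      rw [← Complex.exp_add]
      congr 1
      rw [hb]
      ring
    rw [e1, e2]
    ring
  unfold co
  rw [h1, intervalIntegral.integral_sub, intervalIntegral.integral_const_mul,
    intervalIntegral.integral_const_mul, integral_exp_mul_complex ha0, integral_exp_mul_complex hb0]
  · have ea : Complex.exp (a * ((2 * π : ℝ) : ℂ)) = -1 := by
      have : a * ((2 * π : ℝ) : ℂ) = -(π * Complex.I) + (-n : ℤ) * (2 * π * Complex.I) := by
        rw [ha]; push_cast; ring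
      rw [this, Complex.exp_add, Complex.exp_int_mul_two_pi_mul_I, mul_one, Complex.exp_neg,
        Complex.exp_pi_mul_I]
      norm_num
    have eb : Complex.exp (b * ((2 * π : ℝ) : ℂ)) = -1 := by
      have : b * ((2 * π : ℝ) : ℂ) = (π * Complex.I) + (-n : ℤ) * (2 * π * Complex.I) := by
        rw [hb]; push_cast; ring
      rw [this, Complex.exp_add, Complex.exp_int_mul_two_pi_mul_I, mul_one, Complex.exp_pi_mul_I]
    rw [ea, eb]
    simp only [Complex.ofReal_zero, mul_zero, Complex.exp_zero]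
    rw [ha, hb]
    have h4 : (1 : ℂ) - 4 * (n : ℂ) ^ 2 ≠ 0 := by
      have : (1 : ℂ) - 4 * (n : ℂ) ^ 2 = 4 * ((1 / 2 + n) * (1 / 2 - n)) := by ring
      rw [this]
      exact mul_ne_zero (by norm_num) (mul_ne_zero hp hm)
    push_cast
    have hp' : (1 : ℂ) + 2 * n ≠ 0 := by
      intro h; apply hp; linear_combination h / 2
    have hm' : (1 : ℂ) - 2 * n ≠ 0 := by
      intro h; apply hm; linear_combination h / 2
    have f1 : Complex.I * ((-1 - 1) / -(Complex.I * (1 / 2 + (n : ℂ)))) = 4 / (1 + 2 * n) := by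
      have : (1 / 2 + (n : ℂ)) = (1 + 2 * n) / 2 := by ring
      rw [this]
      field_simp
      ring
    have f2 : Complex.I * ((-1 - 1) / (Complex.I * (1 / 2 - (n : ℂ)))) = -4 / (1 - 2 * n) := by
      have : (1 / 2 - (n : ℂ)) = (1 - 2 * n) / 2 := by ring
      rw [this]
      field_simp
      ring
    have f3 : (1 : ℂ) - 4 * (n : ℂ) ^ 2 = (1 + 2 * n) * (1 - 2 * n) := by ring
    rw [f1, f2, f3]
    field_simp
    ring
  · exact (Continuous.intervalIntegrable (by fun_prop) _ _)
  · exact (Continuous.intervalIntegrable (by fun_prop) _ _)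

end Pool.Agent.X50.SL
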