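import Mathlib
import Pool.Agent.X50.SL.Ex

set_option autoImplicit false
set_option linter.unusedSectionVars false
open scoped ENNReal InnerProductSpace Topology Real NNReal
open Module ContinuousLinearMap Filter MeasureTheory
open Pool.Agent.Helper872.Sch

namespace Pool.Agent.X50.SL

/-- The disc algebra: the functions on the circle that extend to a continuous function on the
closed disc which is holomorphic in the open disc. -/
def DiscAlgebra : Set (Circle → ℂ) :=
  {f | ∃ g : ℂ → ℂ, ContinuousOn g (Metric.closedBall 0 1) ∧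
    DifferentiableOn ℂ g (Metric.ball 0 1) ∧ ∀ z : Circle, f z = g z}

theorem fE_not_mem : fE ∉ DiscAlgebra := by
  rintro ⟨g, hg1, hg2, hg3⟩
  have h1 := Complex.circleIntegral_eq_zero_of_differentiable_on_off_countable zero_le_one
    (Set.countable_empty) hg1 (fun z hz => (hg2.differentiableAt (Metric.isOpen_ball.mem_nhds hz.1)))
  rw [circleIntegral] at h1
  have h2 : ∫ θ in (0 : ℝ)..(2 * π), deriv (circleMap 0 1) θ • g (circleMap 0 1 θ)
      = ∫ θ in (0 : ℝ)..(2 * π), Complex.I *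
        (fE (Circle.exp θ) * Complex.exp (-(((-1 : ℤ) : ℂ) * θ * Complex.I))) := by
    refine intervalIntegral.integral_congr fun θ _ => ?_
    rw [deriv_circleMap, hg3, Circle.coe_exp, smul_eq_mul]
    simp only [circleMap, Complex.ofReal_one, one_mul, zero_add]
    push_cast
    rw [show -(-1 * (θ : ℂ) * Complex.I) = θ * Complex.I by ring]
    ring
  rw [h2, intervalIntegral.integral_const_mul] at h1
  have h3 : ∫ θ in (0 : ℝ)..(2 * π),
      (fE (Circle.exp θ) * Complex.exp (-(((-1 : ℤ) : ℂ) * θ * Complex.I))) = 0 := by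
    rcases mul_eq_zero.1 h1 with h | h
    · exact absurd h Complex.I_ne_zero
    · exact h
  have h4 : co fE (-1) = 0 := by
    unfold co
    rw [h3, mul_zero]
  rw [co_fE] at h4
  have h5 : (4 / (π * (1 - 4 * (((-1 : ℤ) : ℝ)) ^ 2)) : ℝ) = 0 := by exact_mod_cast h4
  have hpi := Real.pi_pos
  have h6 : (4 / (π * (1 - 4 * (((-1 : ℤ) : ℝ)) ^ 2)) : ℝ) = -(4 / (3 * π)) := by
    push_cast
    field_simp
    norm_num
  rw [h6] at h5
  have : 0 < 4 / (3 * π) := by positivity
  linarith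

/-- the real coefficients -/
noncomputable def cr (n : ℤ) : ℝ := 4 / (π * (1 - 4 * (n : ℝ) ^ 2))

theorem cr_summable : Summable cr := by
  have h := summable_co fE_lip
  simp only [co_fE, Complex.norm_real] at h
  exact h.of_norm

/-- the values of the functional calculus at real scalars -/
noncomputable def v (r : ℝ) : ℝ := ∑' n : ℤ, cr n * r ^ n.natAbs

theorem v_summable {r : ℝ} (h0 : 0 ≤ r) (h1 : r ≤ 1) : Summable (fun n : ℤ => cr n * r ^ n.natAbs) := by
  refine Summable.of_norm_bounded cr_summable.norm fun n => ?_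
  rw [norm_mul, norm_pow, Real.norm_of_nonneg h0]
  calc ‖cr n‖ * r ^ n.natAbs ≤ ‖cr n‖ * 1 := by
        gcongr
        exact pow_le_one₀ h0 h1
    _ = _ := mul_one _

theorem cr_nonpos {n : ℤ} (hn : n ≠ 0) : cr n ≤ 0 := by
  unfold cr
  apply div_nonpos_of_nonneg_of_nonpos (by norm_num)
  have h1 : (1 : ℝ) ≤ (n : ℝ) ^ 2 := by
    have : (1 : ℤ) ≤ n ^ 2 := by
      have := sq_nonneg n
      have h : n ^ 2 ≠ 0 := pow_ne_zero 2 hn
      omega
    exact_mod_cast this
  have := Real.pi_pos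
  nlinarith

theorem pow_gap {δ : ℝ} (h0 : 0 ≤ δ) (h1 : δ ≤ 1) (k : ℕ) (hk : k * δ ≤ 1) :
    k * δ / 2 ≤ 1 - (1 - δ) ^ k := by
  have h2 : 1 + k * δ ≤ (1 + δ) ^ k := one_add_mul_le_pow (by linarith) k
  have h3 : (1 - δ) ^ k * (1 + δ) ^ k ≤ 1 := by
    rw [← mul_pow]
    apply pow_le_one₀
    · nlinarith
    · nlinarith
  have h4 : 0 ≤ (1 - δ) ^ k := pow_nonneg (by linarith) k
  have h5 : (1 - δ) ^ k * (1 + k * δ) ≤ 1 := (mul_le_mul_of_nonneg_left h2 h4).trans h3
  have h6 : 0 ≤ k * δ := by positivity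
  nlinarith

theorem harm_lower (m : ℕ) : (m : ℝ) / 2 ≤ ∑ n ∈ Finset.range (2 ^ m), 1 / ((n : ℝ) + 1) := by
  induction m with
  | zero => simp
  | succ m ih =>
    rw [pow_succ, mul_two, Finset.sum_range_add]
    have h1 : (1 : ℝ) / 2 ≤ ∑ n ∈ Finset.range (2 ^ m), 1 / (((2 ^ m + n : ℕ) : ℝ) + 1) := by
      calc (1 : ℝ) / 2 = ∑ n ∈ Finset.range (2 ^ m), 1 / ((2 : ℝ) ^ m * 2) := by
            rw [Finset.sum_const, Finset.card_range, nsmul_eq_mul]
            push_cast
            field_simp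
        _ ≤ _ := by
            refine Finset.sum_le_sum fun n hn => ?_
            have hn' : n + 1 ≤ 2 ^ m := Finset.mem_range.1 hn
            have hn2 : (n : ℝ) + 1 ≤ 2 ^ m := by exact_mod_cast hn'
            apply one_div_le_one_div_of_le
            · positivity
            · push_cast
              linarith
    push_cast
    push_cast at h1
    linarith

theorem v_gap (m : ℕ) (δ : ℝ) (hδ : δ = (1 / 2) ^ m) :
    δ * m / (4 * π) ≤ |v 1 - v (1 - δ)| := by
  have hδ0 : 0 < δ := by rw [hδ]; positivity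
  have hδ1 : δ ≤ 1 := by rw [hδ]; exact pow_le_one₀ (by norm_num) (by norm_num)
  have hpi := Real.pi_pos
  have h1 := (v_summable zero_le_one le_rfl).hasSum
  have h2 := (v_summable (r := 1 - δ) (by linarith) (by linarith)).hasSum
  have h3 := (h2.sub h1)
  have h4 : ∀ n : ℤ, 0 ≤ cr n * (1 - δ) ^ n.natAbs - cr n * 1 ^ n.natAbs := by
    intro n
    by_cases hn : n = 0
    · subst hn; simp
    · rw [one_pow, ← mul_sub]
      apply mul_nonneg_of_nonpos_of_nonpos (cr_nonpos hn)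
      have : (1 - δ) ^ n.natAbs ≤ 1 := pow_le_one₀ (by linarith) (by linarith)
      linarith
  let s : Finset ℤ := (Finset.range (2 ^ m)).map ⟨fun n : ℕ => ((n : ℤ) + 1), fun a b h => by
    simpa using h⟩
  have h5 := sum_le_hasSum s (fun n _ => h4 n) h3
  rw [Finset.sum_map] at h5
  have h6 : ∀ n ∈ Finset.range (2 ^ m), δ / (2 * π) * (1 / ((n : ℝ) + 1))
      ≤ cr ((n : ℤ) + 1) * (1 - δ) ^ ((n : ℤ) + 1).natAbs - cr ((n : ℤ) + 1) * 1 ^ ((n : ℤ) + 1).natAbs := by
    intro n hn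
    have hn' : n + 1 ≤ 2 ^ m := Finset.mem_range.1 hn
    have e1 : ((n : ℤ) + 1).natAbs = n + 1 := by
      have : ((n : ℤ) + 1) = ((n + 1 : ℕ) : ℤ) := by push_cast; ring
      rw [this, Int.natAbs_natCast]
    rw [e1, one_pow, ← mul_sub]
    have hk : ((n + 1 : ℕ) : ℝ) * δ ≤ 1 := by
      rw [hδ]
      have : ((n + 1 : ℕ) : ℝ) ≤ 2 ^ m := by exact_mod_cast hn'
      calc ((n + 1 : ℕ) : ℝ) * (1 / 2) ^ m ≤ 2 ^ m * (1 / 2) ^ m := by gcongr
        _ = 1 := by rw [← mul_pow]; norm_num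
    have hg := pow_gap hδ0.le hδ1 (n + 1) hk
    have hx : 0 < (n : ℝ) + 1 := by positivity
    have hc : -cr ((n : ℤ) + 1) = 4 / (π * (4 * ((n : ℝ) + 1) ^ 2 - 1)) := by
      unfold cr
      push_cast
      have hne : (1 : ℝ) - 4 * ((n : ℝ) + 1) ^ 2 ≠ 0 := by nlinarith
      have hne2 : 4 * ((n : ℝ) + 1) ^ 2 - 1 ≠ 0 := by nlinarith
      rw [← div_neg, neg_mul_eq_mul_neg, neg_sub]
    have hc2 : 1 / (π * ((n : ℝ) + 1) ^ 2) ≤ -cr ((n : ℤ) + 1) := by
      rw [hc, div_le_div_iff₀ (by positivity) (by apply mul_pos hpi; nlinarith)]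
      nlinarith
    have hg0 : 0 ≤ ((n + 1 : ℕ) : ℝ) * δ / 2 := by positivity
    calc δ / (2 * π) * (1 / ((n : ℝ) + 1))
        = 1 / (π * ((n : ℝ) + 1) ^ 2) * (((n + 1 : ℕ) : ℝ) * δ / 2) := by
          push_cast
          field_simp
      _ ≤ (-cr ((n : ℤ) + 1)) * (1 - (1 - δ) ^ (n + 1)) := by
          apply mul_le_mul hc2 hg hg0
          have : 0 ≤ 1 / (π * ((n : ℝ) + 1) ^ 2) := by positivity
          linarith
      _ = _ := by ring
  have h7 : δ / (2 * π) * ((m : ℝ) / 2) ≤ v (1 - δ) - v 1 := by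
    calc δ / (2 * π) * ((m : ℝ) / 2)
        ≤ δ / (2 * π) * ∑ n ∈ Finset.range (2 ^ m), 1 / ((n : ℝ) + 1) := by
          gcongr
          exact harm_lower m
      _ = ∑ n ∈ Finset.range (2 ^ m), δ / (2 * π) * (1 / ((n : ℝ) + 1)) := by rw [Finset.mul_sum]
      _ ≤ _ := (Finset.sum_le_sum h6).trans h5
  rw [abs_sub_comm]
  calc δ * m / (4 * π) = δ / (2 * π) * ((m : ℝ) / 2) := by field_simp; norm_num
    _ ≤ _ := h7
    _ ≤ _ := le_abs_self _

end Pool.Agent.X50.SL
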