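import Mathlib
import Pool.Agent.X50.SL.Ex2

set_option autoImplicit false
set_option linter.unusedSectionVars false
open scoped ENNReal InnerProductSpace Topology Real NNReal
open Module ContinuousLinearMap Filter MeasureTheory
open Pool.Agent.Helper872.Sch

namespace Pool.Agent.X50.SL

universe u
variable {H : Type u} [NormedAddCommGroup H] [InnerProductSpace ℂ H] [CompleteSpace H]
variable {ι : Type*} {b : HilbertBasis ι ℂ H}

/-- the rank one projection onto a basis vector -/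
noncomputable def pj (b : HilbertBasis ι ℂ H) (k : ι) : H →L[ℂ] H :=
  (innerSL ℂ (b k)).smulRight (b k)

theorem pj_apply (k : ι) (x : H) : pj b k x = ⟪b k, x⟫_ℂ • b k := rfl

theorem pj_compact (k : ι) : IsCompactOperator (pj b k) := by
  have h1 : IsCompactOperator (innerSL ℂ (b k)) :=
    isCompactOperator_of_locallyCompactSpace_dom (innerSL ℂ (b k))
  exact h1.clm_comp ((ContinuousLinearMap.id ℂ ℂ).smulRight (b k) : ℂ →L[ℂ] H)

theorem pj_basis [DecidableEq ι] (k j : ι) :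
    pj b k (b j) = (if j = k then (1 : ℂ) else 0) • b j := by
  rw [pj_apply]
  by_cases h : j = k
  · subst h
    rw [if_pos rfl, inner_self_eq_norm_sq_to_K, b.orthonormal.1]
    simp
  · rw [if_neg h, b.orthonormal.2 (Ne.symm h), zero_smul, zero_smul]

/-- `T` is diagonal in the basis `b` with entries `t` -/
def Dg (b : HilbertBasis ι ℂ H) (T : H →L[ℂ] H) (t : ι → ℂ) : Prop := ∀ k, T (b k) = t k • b k

theorem Dg.adj {T : H →L[ℂ] H} {t : ι → ℂ} (hT : Dg b T t) :
    Dg b (adjoint T) (fun k => (starRingEnd ℂ) (t k)) := by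
  intro j
  apply ext_basis b
  intro k
  rw [adjoint_inner_right, hT k, inner_smul_left, inner_smul_right]
  by_cases hkj : k = j
  · rw [hkj]
  · rw [b.orthonormal.2 hkj, mul_zero, mul_zero]

theorem Dg.sing {T : H →L[ℂ] H} {t : ι → ℂ} (hT : Dg b T t) : SingBasis b T := by
  intro j
  rw [hT j, map_smul, hT.adj j, smul_smul, norm_smul, b.orthonormal.1 j, mul_one, Complex.mul_conj']
  push_cast
  rfl

theorem Dg.pow {T : H →L[ℂ] H} {t : ι → ℂ} (hT : Dg b T t) (n : ℕ) :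
    Dg b (T ^ n) (fun k => t k ^ n) := by
  induction n with
  | zero => intro k; simp
  | succ n ih =>
    intro k
    rw [pow_succ']
    change T ((T ^ n) (b k)) = _
    rw [ih k, map_smul, hT k, smul_smul]
    change (t k ^ n * t k) • b k = (t k ^ (n + 1)) • b k
    rw [pow_succ]

theorem Dg.norm_le {T : H →L[ℂ] H} {t : ι → ℂ} (hT : Dg b T t) (ht : ∀ k, ‖t k‖ ≤ 1) :
    ‖T‖ ≤ 1 := by
  refine T.opNorm_le_bound zero_le_one fun x => ?_
  rw [one_mul]
  have h1 := sing_parseval hT.sing x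
  have h2 := Pool.Agent.Helper872.Sch.parseval b x
  have h3 : ‖T x‖ₑ ^ 2 ≤ ‖x‖ₑ ^ 2 := by
    rw [← h1, ← h2]
    refine ENNReal.tsum_le_tsum fun i => ?_
    have h4 : ‖T (b i)‖ₑ ≤ 1 := by
      rw [hT i, ← ofReal_norm, ← ENNReal.ofReal_one]
      apply ENNReal.ofReal_le_ofReal
      rw [norm_smul, b.orthonormal.1 i, mul_one]
      exact ht i
    calc ‖⟪b i, x⟫_ℂ‖ₑ ^ 2 * ‖T (b i)‖ₑ ^ 2 ≤ ‖⟪b i, x⟫_ℂ‖ₑ ^ 2 * 1 ^ 2 := by gcongr
      _ = _ := by simp
  have h5 : ‖T x‖ₑ ≤ ‖x‖ₑ := (ENNReal.pow_le_pow_left_iff two_ne_zero).1 h3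
  rw [← ofReal_norm, ← ofReal_norm] at h5
  exact (ENNReal.ofReal_le_ofReal_iff (norm_nonneg _)).1 h5

theorem Dg.pw {T : H →L[ℂ] H} {r : ι → ℝ} (hT : Dg b T (fun k => (r k : ℂ))) (n : ℤ) :
    Dg b (pw T n) (fun k => (r k : ℂ) ^ n.natAbs) := by
  unfold Pool.Agent.X50.SL.pw
  split_ifs with h
  · have : n.toNat = n.natAbs := by omega
    rw [this]
    exact hT.pow _
  · have : (-n).toNat = n.natAbs := by omega
    rw [this]
    have h2 := hT.adj
    simp only [Complex.conj_ofReal] at h2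
    exact Dg.pow h2 _

theorem Dg.fc {T : H →L[ℂ] H} {r : ι → ℝ} (hT : Dg b T (fun k => (r k : ℂ)))
    (hr0 : ∀ k, 0 ≤ r k) (hr1 : ∀ k, r k ≤ 1) : Dg b (fc fE T) (fun k => (v (r k) : ℂ)) := by
  intro k
  have hn : ‖T‖ ≤ 1 := hT.norm_le fun k => by
    rw [Complex.norm_real, Real.norm_of_nonneg (hr0 k)]
    exact hr1 k
  have h1 := hasSum_fc fE_lip hn
  have h2 : HasSum (fun n : ℤ => (co fE n • Pool.Agent.X50.SL.pw T n) (b k)) (Pool.Agent.X50.SL.fc fE T (b k)) :=
    h1.mapL (ContinuousLinearMap.apply ℂ H (b k))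
  have h3 : ∀ n : ℤ, (co fE n • Pool.Agent.X50.SL.pw T n) (b k) = ((cr n * r k ^ n.natAbs : ℝ) : ℂ) • b k := by
    intro n
    rw [smul_apply, hT.pw n k, smul_smul, co_fE]
    push_cast
    unfold cr
    push_cast
    rfl
  simp only [h3] at h2
  have h4 := (v_summable (hr0 k) (hr1 k)).hasSum
  have h5 : HasSum (fun n : ℤ => ((cr n * r k ^ n.natAbs : ℝ) : ℂ) • b k)
      (((v (r k) : ℝ) : ℂ) • b k) :=
    ((Complex.hasSum_ofReal.2 h4).smul_const (b k))
  exact h2.unique h5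

theorem Dg.eq_sum {a : H →L[ℂ] H} {d : ι → ℂ} (S : Finset ι) (ha : Dg b a d)
    (hd : ∀ k, k ∉ S → d k = 0) : a = ∑ k ∈ S, d k • pj b k := by
  classical
  apply clm_ext_basis b
  intro j
  rw [ha j, sum_apply]
  simp only [smul_apply, pj_basis, smul_smul]
  rw [← Finset.sum_smul]
  congr 1
  by_cases hj : j ∈ S
  · rw [Finset.sum_eq_single_of_mem j hj]
    · simp
    · intro k _ hk
      rw [if_neg (Ne.symm hk), mul_zero]
  · rw [hd j hj, Finset.sum_eq_zero]
    intro k hk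
    have : j ≠ k := fun h => hj (h ▸ hk)
    rw [if_neg this, mul_zero]

theorem Dg.compact {a : H →L[ℂ] H} {d : ι → ℂ} (S : Finset ι) (ha : Dg b a d)
    (hd : ∀ k, k ∉ S → d k = 0) : IsCompactOperator a := by
  rw [ha.eq_sum S hd]
  have : ∀ S : Finset ι, IsCompactOperator (∑ k ∈ S, d k • pj b k : H →L[ℂ] H) := by
    classical
    intro S
    induction S using Finset.induction_on with
    | empty => simpa using isCompactOperator_zero
    | insert k S hk ih =>
      rw [Finset.sum_insert hk]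
      exact ((pj_compact k).smul (d k)).add ih
  exact this S

theorem sN_fin {p : ℝ} (hp : 0 < p) {a : H →L[ℂ] H} {d : ι → ℂ} (S : Finset ι) (ha : Dg b a d)
    (hd : ∀ k, k ∉ S → d k = 0) : sN p a = (∑ k ∈ S, ‖d k‖ₑ ^ p) ^ (1 / p) := by
  have hc := ha.compact S hd
  rw [sN_of_compact hc, trPow_eq ha.sing (compact_star_mul hc) hp]
  congr 1
  have h1 : ∀ k, ‖a (b k)‖ₑ ^ p = ‖d k‖ₑ ^ p := by
    intro k
    rw [ha k, enorm_smul, enorm_eq_one b.orthonormal, mul_one]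
  simp only [h1]
  apply tsum_eq_sum
  intro k hk
  rw [hd k hk, enorm_zero, ENNReal.zero_rpow_of_pos hp]

/-- the perturbations of the identity -/
noncomputable def Tf (b : HilbertBasis ι ℂ H) (δ : ι → ℝ) (S : Finset ι) : H →L[ℂ] H :=
  1 - ∑ k ∈ S, ((δ k : ℝ) : ℂ) • pj b k

open Classical in
theorem Tf_dg (δ : ι → ℝ) (S : Finset ι) :
    Dg b (Tf b δ S) (fun k => (((if k ∈ S then 1 - δ k else 1 : ℝ)) : ℂ)) := by
  intro j
  unfold Tf
  rw [sub_apply, sum_apply]
  simp only [smul_apply, pj_basis, smul_smul]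
  rw [← Finset.sum_smul]
  have : (∑ k ∈ S, ((δ k : ℝ) : ℂ) * (if j = k then (1 : ℂ) else 0)) = if j ∈ S then ((δ j : ℝ) : ℂ) else 0 := by
    simp only [mul_ite, mul_one, mul_zero, Finset.sum_ite_eq]
  rw [this]
  change b j - _ = _
  split_ifs
  · push_cast
    rw [sub_smul, one_smul]
  · simp

theorem one_dg : Dg b (1 : H →L[ℂ] H) (fun _ => (((1 : ℝ)) : ℂ)) := by
  intro j
  simp

theorem Dg.sub {a c : H →L[ℂ] H} {s t : ι → ℂ} (ha : Dg b a s) (hc : Dg b c t) :
    Dg b (a - c) (fun k => s k - t k) := by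
  intro k
  rw [sub_apply, ha k, hc k, sub_smul]

end Pool.Agent.X50.SL
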